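import Pool.Agent.Y744.GP.Card

/-!
For every `k > 0` a `k`-parameter family of non-trivial geproci sets of `12 (k + 1)` points in
projective three-space, all with isomorphic matroids, in which every projective equivalence class
is finite.
-/

set_option autoImplicit false

open Cardinal
open Pool.Agent.Results.MP_586029_ag.GeprociMatroid

namespace Pool.Agent.Results.MP_586029_ag.FamiliesEveryDimension

/-- The vectors `(0,1,1,1)`, `(-1,0,-1,1)`, `(-1,1,0,-1)`, `(-1,-1,1,0)`; the `i`-th unit vector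
and `F i` span the `i`-th of four pairwise skew lines. -/
def F : Fin 4 → V4 := ![![0, 1, 1, 1], ![-1, 0, -1, 1], ![-1, 1, 0, -1], ![-1, -1, 1, 0]]

/-- The set of the points `[x e_i + y F_i]`, where `i` is one of the four indices and `(x, y)` is
one of the pairs `(1, s)`, `(1 - 3 s, 1 + s)`, `(1 + 3 s, s - 1)` with `s = 0` or `s = t j` for
some `j`. -/
def Z {k : ℕ} (t : Fin k → ℂ) : Set P3 :=
  {p | ∃ (i : Fin 4) (s x y : ℂ), (s = 0 ∨ ∃ j, s = t j) ∧
    ((x, y) = (1, s) ∨ (x, y) = (1 - 3 * s, 1 + s) ∨ (x, y) = (1 + 3 * s, s - 1)) ∧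
    p.submodule = Submodule.span ℂ {x • (Pi.single i 1 : V4) + y • F i}}

open Pool.Agent.Y744.GP Pool.Agent.Helper26.GeprociPts in
lemma Z_eq {k : ℕ} (t : Fin k → ℂ) : Z t = ZZ t := by
  have hd : ∀ (s : ℂ) (i : Fin 4) (a : Fin 3), dp s i a =
      pA s a • (Pi.single i 1 : V4) + pB s a • F i := by
    intro s i a
    funext l
    fin_cases i <;> fin_cases l <;> simp [dp, lpt, ee, ff, F]
  ext p
  constructor
  · rintro ⟨i, s, x, y, hs, hxy, hp⟩
    have ha : ∃ a : Fin 3, x = pA s a ∧ y = pB s a := by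
      rcases hxy with h | h | h
      · exact ⟨0, by simpa [pA, pB] using h⟩
      · exact ⟨1, by simpa [pA, pB] using h⟩
      · exact ⟨2, by simpa [pA, pB] using h⟩
    have hj : ∃ j, s = ext0 t j := by
      rcases hs with h | ⟨j, h⟩
      · exact ⟨0, h⟩
      · exact ⟨j.succ, h⟩
    obtain ⟨a, hx, hy⟩ := ha
    obtain ⟨j, hj⟩ := hj
    refine ⟨(i, j, a), ?_⟩
    apply Projectivization.submodule_injective
    rw [hp, Projectivization.submodule_mk, hd, hx, hy, hj]
  · rintro ⟨⟨i, j, a⟩, rfl⟩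
    refine ⟨i, ext0 t j, pA (ext0 t j) a, pB (ext0 t j) a, ?_, ?_, ?_⟩
    · refine Fin.cases (Or.inl rfl) (fun l => Or.inr ⟨l, rfl⟩) j
    · fin_cases a <;> simp [pA, pB]
    · rw [Projectivization.submodule_mk, hd]

open Pool.Agent.Y744.GP in
/-- **Main result.** Let `k > 0`. For `t` in `ℂ ^ k` with coordinates algebraically independent
over `ℚ`, `Z t` is a non-trivial geproci set of `12 (k + 1)` points, and all these sets have
isomorphic matroids. For every `t` in `ℂ ^ k` only finitely many `t'` in `ℂ ^ k` have `Z t'`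
projectively equivalent to `Z t`. There is a set of continuum many such algebraically independent
`t` for which the sets `Z t` are pairwise not projectively equivalent. -/
theorem result (k : ℕ) (hk : 0 < k) :
    (∀ t : Fin k → ℂ, AlgebraicIndependent ℚ t →
      IsNontrivialGeproci (Z t) ∧ (Z t).ncard = 12 * (k + 1)) ∧
    (∀ t t' : Fin k → ℂ, AlgebraicIndependent ℚ t → AlgebraicIndependent ℚ t' →
      MatroidsIsomorphic (Z t) (Z t')) ∧
    (∀ t : Fin k → ℂ, {t' : Fin k → ℂ | ProjectivelyEquivalent (Z t') (Z t)}.Finite) ∧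
    ∃ T : Set (Fin k → ℂ), #T = 𝔠 ∧ (∀ t ∈ T, AlgebraicIndependent ℚ t) ∧
      ∀ t ∈ T, ∀ t' ∈ T, t ≠ t' → ¬ ProjectivelyEquivalent (Z t) (Z t') := by
  refine ⟨fun t ht => ⟨⟨?_, ?_, ?_⟩, ?_⟩, ?_, ?_, ?_⟩
  · rw [Z_eq]
    exact isGeproci_Zs (Nat.succ_pos k) (good_of_ai ht)
  · rw [Z_eq]
    exact not_isDegenerate_Zs (j₀ := 0) rfl
  · rw [Z_eq]
    exact not_isGrid_Zs (j₀ := 0) rfl
  · rw [Z_eq]
    exact ncard_ZZ (good_of_ai ht)
  · intro t t' ht ht'
    rw [Z_eq, Z_eq]
    exact matroidsIso ht ht'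
  · intro t
    have := finite_class t
    simpa only [Z_eq] using this
  · obtain ⟨T, h1, h2, h3⟩ := exists_large hk
    refine ⟨T, h1, h2, ?_⟩
    intro t ht t' ht' hne h
    rw [Z_eq, Z_eq] at h
    exact hne (h3 t ht t' ht' h)

end Pool.Agent.Results.MP_586029_ag.FamiliesEveryDimension
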